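import Pool.Agent.MP_e16cda_ag.Sums

set_option autoImplicit false

namespace Pool.Agent.MP_e16cda_ag

open scoped Real ComplexConjugate
open Complex Filter Topology

/-- one-dimensional sums `∑ n^k exp (π i n² τ)` -/
noncomputable def T (k : ℕ) (τ : ℂ) : ℂ := ∑' n : ℤ, (n : ℂ) ^ k * cexp (π * I * (n : ℂ) ^ 2 * τ)

theorem summable_T (k : ℕ) {τ : ℂ} (hτ : 0 < τ.im) :
    Summable (fun n : ℤ => ‖(n : ℂ) ^ k * cexp (π * I * (n : ℂ) ^ 2 * τ)‖) := by
  refine Summable.of_nonneg_of_le (fun n => norm_nonneg _) (fun n => ?_)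
    (summable_pow_mul_jacobiTheta₂_term_bound 0 hτ k)
  have := norm_jacobiTheta₂_term_le (S := 0) (z := 0) hτ (by simp) le_rfl n
  simp only [jacobiTheta₂_term, mul_zero, zero_add] at this
  rw [norm_mul, norm_pow]
  refine mul_le_mul (le_of_eq ?_) (by simpa using this) (norm_nonneg _) (by positivity)
  simp

theorem T_zero (τ : ℂ) : T 0 τ = jacobiTheta₂ 0 τ := by
  simp [T, jacobiTheta₂, jacobiTheta₂_term]

theorem hasDerivAt_T {τ : ℂ} (hτ : 0 < τ.im) : HasDerivAt (T 0) (π * I * T 2 τ) τ := by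
  have h1 := ((hasFDerivAt_jacobiTheta₂ 0 hτ).comp τ (hasFDerivAt_prodMk_right (0 : ℂ) τ)).hasDerivAt
  have h2 := (hasSum_jacobiTheta₂_term_fderiv 0 hτ).mapL
    (ContinuousLinearMap.apply ℂ ℂ ((0 : ℂ), (1 : ℂ)))
  have h3 : (jacobiTheta₂_fderiv 0 τ) (0, 1) = π * I * T 2 τ := by
    have := h2.tsum_eq
    simp only [ContinuousLinearMap.apply_apply] at this
    rw [← this, T, ← tsum_mul_left]
    refine tsum_congr (fun n => ?_)
    simp [jacobiTheta₂_term_fderiv]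
    ring
  have e : T 0 = fun τ => jacobiTheta₂ 0 τ := funext T_zero
  rw [e, ← h3]
  simpa [Function.comp_def] using h1

theorem T_add_two (k : ℕ) (τ : ℂ) : T k (τ + 2) = T k τ := by
  refine tsum_congr (fun n => ?_)
  congr 1
  rw [mul_add, Complex.exp_add]
  have : cexp (π * I * (n : ℂ) ^ 2 * 2) = 1 := by
    rw [Complex.exp_eq_one_iff]
    exact ⟨n ^ 2, by push_cast; ring⟩
  rw [this, mul_one]

theorem im_neg_inv {τ : ℂ} (hτ : 0 < τ.im) : 0 < (-1 / τ).im := by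
  have h0 : τ ≠ 0 := fun h => by simp [h] at hτ
  rw [neg_div, neg_im, one_div, inv_im, neg_div, neg_neg]
  exact div_pos hτ (normSq_pos.mpr h0)

theorem T_sq {τ : ℂ} (hτ : 0 < τ.im) : T 0 (-1 / τ) ^ 2 = -I * τ * T 0 τ ^ 2 := by
  have h0 : τ ≠ 0 := fun h => by simp [h] at hτ
  have h1 : -I * τ ≠ 0 := mul_ne_zero (neg_ne_zero.mpr I_ne_zero) h0
  have h2 : ((-I * τ) ^ (1 / 2 : ℂ)) ^ 2 = -I * τ := by
    rw [one_div]
    exact_mod_cast Complex.cpow_ofNat_inv_pow (-I * τ) 2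
  have := jacobiTheta₂_functional_equation 0 τ
  simp only [ne_eq, OfNat.ofNat_ne_zero, not_false_eq_true, zero_pow, mul_zero, zero_div,
    Complex.exp_zero, mul_one] at this
  rw [T_zero, T_zero, this, mul_pow, div_pow, h2]
  field_simp

theorem T_deriv {τ : ℂ} (hτ : 0 < τ.im) :
    2 * T 0 (-1 / τ) * (π * I * T 2 (-1 / τ) * (1 / τ ^ 2)) =
      -I * T 0 τ ^ 2 + -I * τ * (2 * T 0 τ * (π * I * T 2 τ)) := by
  have h0 : τ ≠ 0 := fun h => by simp [h] at hτ
  have hinv : HasDerivAt (fun z : ℂ => -1 / z) (1 / τ ^ 2) τ := by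
    have := ((hasDerivAt_const τ (-1 : ℂ)).fun_div (hasDerivAt_id' τ) h0)
    exact this.congr_deriv (by simp)
  have d1 : HasDerivAt (fun z : ℂ => T 0 (-1 / z) ^ 2)
      (2 * T 0 (-1 / τ) * (π * I * T 2 (-1 / τ) * (1 / τ ^ 2))) τ := by
    have := ((hasDerivAt_T (im_neg_inv hτ)).comp τ hinv).fun_pow 2
    exact this.congr_deriv (by simp)
  have d2 : HasDerivAt (fun z : ℂ => -I * z * T 0 z ^ 2)
      (-I * T 0 τ ^ 2 + -I * τ * (2 * T 0 τ * (π * I * T 2 τ))) τ := by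
    have := ((hasDerivAt_id' τ).const_mul (-I)).fun_mul ((hasDerivAt_T hτ).fun_pow 2)
    exact this.congr_deriv (by simp)
  have ev : (fun z : ℂ => T 0 (-1 / z) ^ 2) =ᶠ[𝓝 τ] (fun z : ℂ => -I * z * T 0 z ^ 2) := by
    filter_upwards [(isOpen_lt continuous_const continuous_im).mem_nhds hτ] with z hz
    exact T_sq hz
  exact d1.unique (d2.congr_of_eventuallyEq ev)

theorem T_I_ne : T 0 I ≠ 0 := by
  have e : T 0 I = ((∑' n : ℤ, Real.exp (-(π * (n : ℝ) ^ 2)) : ℝ) : ℂ) := by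
    rw [T, ofReal_tsum]
    refine tsum_congr (fun n => ?_)
    push_cast
    rw [pow_zero, one_mul]
    congr 1
    linear_combination (π * (n : ℂ) ^ 2) * I_mul_I
  have hs : Summable (fun n : ℤ => Real.exp (-(π * (n : ℝ) ^ 2))) := by
    refine (summable_T 0 (τ := I) (by simp)).congr (fun n => ?_)
    have : (π * I * (n : ℂ) ^ 2 * I) = ((-(π * (n : ℝ) ^ 2) : ℝ) : ℂ) := by
      push_cast
      linear_combination (π * (n : ℂ) ^ 2) * I_mul_I
    rw [pow_zero, one_mul, this, Complex.norm_exp, ofReal_re]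
  rw [e]
  exact ofReal_ne_zero.mpr (hs.tsum_pos (fun n => (Real.exp_pos _).le) 0 (Real.exp_pos _)).ne'

theorem T_I : 4 * π * T 2 I = T 0 I := by
  have h := T_deriv (τ := I) (by simp)
  have e : (-1 / I : ℂ) = I := by simp
  rw [e] at h
  apply mul_left_cancel₀ (mul_ne_zero I_ne_zero T_I_ne)
  simp only [I_sq] at h
  linear_combination (-1) * h + (2 * π * I * T 0 I * T 2 I) * I_mul_I

/-- the point `(2 + i) / 5` -/
noncomputable def τ0 : ℂ := (2 + I) / 5

theorem τ0_im : 0 < τ0.im := by simp [τ0]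

theorem τ0_eq : -1 / (I - 2) = τ0 := by
  have : (I - 2 : ℂ) ≠ 0 := fun h => by simpa using congrArg im h
  rw [τ0]
  field_simp
  linear_combination (-1 : ℂ) * I_mul_I

theorem T_shift (k : ℕ) : T k (I - 2) = T k I := by
  rw [← T_add_two]; simp

theorem T_τ0_ne : T 0 τ0 ≠ 0 := by
  have h := T_sq (τ := I - 2) (by simp)
  rw [τ0_eq, T_shift] at h
  intro h0
  rw [h0] at h
  have : (I - 2 : ℂ) ≠ 0 := fun h => by simpa using congrArg im h
  exact mul_ne_zero (mul_ne_zero (neg_ne_zero.mpr I_ne_zero) this) (pow_ne_zero 2 T_I_ne)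
    (by rw [← h]; simp)

theorem T_τ0 : 4 * π * T 2 τ0 = 5 * T 0 τ0 := by
  have h := T_deriv (τ := I - 2) (by simp)
  have h2 := T_sq (τ := I - 2) (by simp)
  rw [τ0_eq, T_shift] at h h2
  rw [T_shift] at h
  have h3 := T_I
  have hne : (I - 2 : ℂ) ≠ 0 := fun h => by simpa using congrArg im h
  apply mul_left_cancel₀ (mul_ne_zero I_ne_zero T_τ0_ne)
  have h' : 2 * T 0 τ0 * (π * I * T 2 τ0) =
      (I - 2) ^ 2 * (-I * T 0 I ^ 2 + -I * (I - 2) * (2 * T 0 I * (π * I * T 2 I))) := by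
    rw [← h]; field_simp
  linear_combination 2 * h' + (-5 * I) * h2 + (-I ^ 2 * (I - 2) ^ 3 * T 0 I) * h3 +
    (T 0 I ^ 2 * (I - 2) * I * (4 - I)) * I_mul_I

theorem T_odd {k : ℕ} (hk : Odd k) (τ : ℂ) : T k τ = 0 := by
  have : T k τ = -T k τ := by
    conv_lhs => rw [T, ← (Equiv.neg ℤ).tsum_eq]
    rw [T, ← tsum_neg]
    refine tsum_congr (fun n => ?_)
    simp [hk.neg_pow]
  linear_combination (1 / 2 : ℂ) * this

theorem T_conj (k : ℕ) (τ : ℂ) : T k (-conj τ) = conj (T k τ) := by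
  rw [T, T, conj_tsum]
  refine tsum_congr (fun n => ?_)
  rw [map_mul, ← exp_conj]
  simp

theorem ratio_eq {k : ℕ} (hk : k ≤ 3) : T k τ0 / T 0 τ0 = T k (-conj τ0) / T 0 (-conj τ0) := by
  rw [T_conj, T_conj, ← map_div₀]
  have hpi : (π : ℂ) ≠ 0 := ofReal_ne_zero.mpr Real.pi_ne_zero
  interval_cases k
  · rw [div_self T_τ0_ne, map_one]
  · simp [T_odd odd_one]
  · have : T 2 τ0 / T 0 τ0 = ((5 / (4 * π) : ℝ) : ℂ) := by
      rw [div_eq_iff T_τ0_ne]
      push_cast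
      field_simp
      linear_combination T_τ0
    rw [this, conj_ofReal]
  · simp [T_odd (by decide : Odd 3)]

/-- the scalar matrix attached to `τ` -/
noncomputable def Bm (g : ℕ) (τ : ℂ) : Matrix (Fin g) (Fin g) ℂ := Matrix.diagonal (fun _ => -I * τ)

theorem Bm_inH (g : ℕ) {τ : ℂ} (hτ : 0 < τ.im) : InH (Bm g τ) := by
  refine ⟨Matrix.isSymm_diagonal _, ?_⟩
  rw [Bm, Matrix.diagonal_map (by simp)]
  exact Matrix.PosDef.diagonal (fun _ => by simpa using hτ)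

theorem weight_Bm (g : ℕ) (τ : ℂ) (n : Fin g → ℤ) :
    weight 0 (Bm g τ) n = ∏ i, cexp (π * I * (n i : ℂ) ^ 2 * τ) := by
  rw [weight, ← Complex.exp_sum]
  congr 1
  have : ∀ i, ∑ j, (n i : ℂ) * Bm g τ i j * (n j : ℂ) = (n i : ℂ) ^ 2 * (-I * τ) := by
    intro i
    rw [Finset.sum_eq_single i]
    · simp [Bm]; ring
    · intro j _ hj
      simp [Bm, Matrix.diagonal_apply_ne _ hj.symm]
    · simp
  simp only [this, Pi.zero_apply, mul_zero, Finset.sum_const_zero, zero_sub, Finset.mul_sum,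
    ← Finset.sum_neg_distrib]
  exact Finset.sum_congr rfl (fun i _ => by ring)

theorem theta_Bm (g : ℕ) {τ : ℂ} (hτ : 0 < τ.im) : theta 0 (Bm g τ) = ∏ _i : Fin g, T 0 τ := by
  have := (prod_sum g (fun _ m => (m : ℂ) ^ 0 * cexp (π * I * (m : ℂ) ^ 2 * τ))
    (fun _ => summable_T 0 hτ)).2
  simp only [theta, weight_Bm, T]
  rw [← this]
  simp

theorem moment_Bm (g : ℕ) {τ : ℂ} (hτ : 0 < τ.im) (α : Fin g → ℕ) :
    moment α 0 (Bm g τ) = ∏ i, (T (α i) τ / T 0 τ) := by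
  have := (prod_sum g (fun i m => (m : ℂ) ^ α i * cexp (π * I * (m : ℂ) ^ 2 * τ))
    (fun i => summable_T (α i) hτ)).2
  simp only [moment, gauss, ← mul_div_assoc]
  rw [tsum_div_const, theta_Bm g hτ, Finset.prod_div_distrib]
  congr 1
  simp only [T]
  rw [← this]
  refine tsum_congr (fun n => ?_)
  rw [weight_Bm, Finset.prod_mul_distrib]

theorem not_determines_three (g : ℕ) (hg : 1 ≤ g) : ¬ Determines g 3 := by
  intro h
  have h1 : 0 < (-conj τ0).im := by simpa using τ0_im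
  have t0 : theta 0 (Bm g τ0) ≠ 0 := by
    rw [theta_Bm g τ0_im]
    exact Finset.prod_ne_zero_iff.mpr (fun _ _ => T_τ0_ne)
  have t1 : theta 0 (Bm g (-conj τ0)) ≠ 0 := by
    rw [theta_Bm g h1, T_conj]
    exact Finset.prod_ne_zero_iff.mpr (fun _ _ => (map_ne_zero _).mpr T_τ0_ne)
  have := h 0 0 _ _ (Bm_inH g τ0_im) (Bm_inH g h1) t0 t1 (fun α hα => by
    rw [moment_Bm g τ0_im, moment_Bm g h1]
    refine Finset.prod_congr rfl (fun i _ => ratio_eq ?_)
    exact (Finset.single_le_sum (f := α) (fun _ _ => Nat.zero_le _) (Finset.mem_univ i)).trans hα)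
  have w1 : ∀ τ, weight 0 (Bm g τ) (Pi.single ⟨0, hg⟩ 1) = cexp (π * I * τ) := by
    intro τ
    rw [weight_Bm, Finset.prod_eq_single ⟨0, hg⟩]
    · simp
    · intro j _ hj
      simp [Pi.single_eq_of_ne hj]
    · simp
  have e0 := congrFun this 0
  have e1 := congrFun this (Pi.single ⟨0, hg⟩ 1)
  simp only [gauss, w1] at e0 e1
  simp only [weight_Bm, Pi.zero_apply, Int.cast_zero, ne_eq, OfNat.ofNat_ne_zero,
    not_false_eq_true, zero_pow, mul_zero, zero_mul, Complex.exp_zero, Finset.prod_const_one,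
    one_div, inv_inj] at e0
  rw [e0, div_left_inj' t1, Complex.exp_eq_exp_iff_exists_int] at e1
  obtain ⟨k, hk⟩ := e1
  have := congrArg im hk
  have hre : τ0.re = 2 / 5 := by simp [τ0]
  simp [hre] at this
  have hpi := Real.pi_pos
  have h5 : (5 * k : ℝ) = 2 := by
    apply mul_left_cancel₀ hpi.ne'
    linarith
  have : (5 * k : ℤ) = 2 := by exact_mod_cast h5
  omega

end Pool.Agent.MP_e16cda_ag
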