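import Mathlib

set_option autoImplicit false

namespace Pool.Agent.MP_e16cda_ag

open scoped Real

/-- `B` is a complex symmetric matrix with positive definite real part. -/
def InH {g : ℕ} (B : Matrix (Fin g) (Fin g) ℂ) : Prop :=
  B.IsSymm ∧ (B.map Complex.re).PosDef

/-- the term `exp (2π (nᵗu - ½ nᵗBn))` -/
noncomputable def weight {g : ℕ} (u : Fin g → ℂ) (B : Matrix (Fin g) (Fin g) ℂ) (n : Fin g → ℤ) :
    ℂ :=
  Complex.exp (2 * (π : ℂ) *
    (∑ i, (n i : ℂ) * u i - 1 / 2 * ∑ i, ∑ j, (n i : ℂ) * B i j * (n j : ℂ)))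

/-- the theta function -/
noncomputable def theta {g : ℕ} (u : Fin g → ℂ) (B : Matrix (Fin g) (Fin g) ℂ) : ℂ :=
  ∑' n : Fin g → ℤ, weight u B n

/-- the discrete Gaussian with parameters `(u, B)` -/
noncomputable def gauss {g : ℕ} (u : Fin g → ℂ) (B : Matrix (Fin g) (Fin g) ℂ) (n : Fin g → ℤ) :
    ℂ :=
  weight u B n / theta u B

/-- the moment of multi-index `α` -/
noncomputable def moment {g : ℕ} (α : Fin g → ℕ) (u : Fin g → ℂ) (B : Matrix (Fin g) (Fin g) ℂ) :
    ℂ :=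
  ∑' n : Fin g → ℤ, (∏ i, (n i : ℂ) ^ α i) * gauss u B n

/-- moments up to order `d` determine discrete Gaussians in dimension `g` -/
def Determines (g d : ℕ) : Prop :=
  ∀ (u u' : Fin g → ℂ) (B B' : Matrix (Fin g) (Fin g) ℂ), InH B → InH B' →
    theta u B ≠ 0 → theta u' B' ≠ 0 →
    (∀ α : Fin g → ℕ, ∑ i, α i ≤ d → moment α u B = moment α u' B') →
    gauss u B = gauss u' B'

end Pool.Agent.MP_e16cda_ag
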