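import Pool.Agent.MP_e16cda_ag.Defs

set_option autoImplicit false

namespace Pool.Agent.MP_e16cda_ag

open scoped Real
open Filter Topology

theorem prod_sum : ∀ (g : ℕ) (f : Fin g → ℤ → ℂ), (∀ i, Summable (fun m => ‖f i m‖)) →
    Summable (fun n : Fin g → ℤ => ‖∏ i, f i (n i)‖) ∧
      ∑' n : Fin g → ℤ, ∏ i, f i (n i) = ∏ i, ∑' m, f i m
  | 0, f, _ => by
    constructor
    · exact Summable.of_finite
    · simp
  | g + 1, f, hf => by
    obtain ⟨ih1, ih2⟩ := prod_sum g (fun i => f i.succ) (fun i => hf i.succ)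
    let e : ℤ × (Fin g → ℤ) ≃ (Fin (g + 1) → ℤ) := Fin.consEquiv (fun _ => ℤ)
    have he : ∀ p : ℤ × (Fin g → ℤ), ∏ i, f i (e p i) = f 0 p.1 * ∏ i : Fin g, f i.succ (p.2 i) := by
      intro p
      rw [Fin.prod_univ_succ]
      simp [e, Fin.consEquiv]
    constructor
    · rw [← e.summable_iff]
      have := (hf 0).mul_norm ih1
      refine this.congr (fun p => ?_)
      simp only [Function.comp, he]
    · rw [← e.tsum_eq, Fin.prod_univ_succ, ← ih2, tsum_mul_tsum_of_summable_norm (hf 0) ih1]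
      exact tsum_congr he

/-- the `ℓ¹` size -/
noncomputable def sz {g : ℕ} (n : Fin g → ℤ) : ℝ := ∑ i, |(n i : ℝ)|

theorem sz_nonneg {g : ℕ} (n : Fin g → ℤ) : 0 ≤ sz n :=
  Finset.sum_nonneg (fun _ _ => abs_nonneg _)

theorem abs_le_sz {g : ℕ} (n : Fin g → ℤ) (i : Fin g) : |(n i : ℝ)| ≤ sz n :=
  Finset.single_le_sum (f := fun i => |(n i : ℝ)|) (fun _ _ => abs_nonneg _) (Finset.mem_univ i)

theorem summable_exp_neg_abs : Summable (fun m : ℤ => Real.exp (-|(m : ℝ)|)) := by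
  have h : Summable (fun n : ℕ => Real.exp (-(n : ℝ))) := Real.summable_exp_neg_nat
  apply Summable.of_nat_of_neg
  · simpa using h
  · simpa using h

theorem summable_exp_neg_sz (g : ℕ) : Summable (fun n : Fin g → ℤ => Real.exp (-sz n)) := by
  have := (prod_sum g (fun _ m => ((Real.exp (-|(m : ℝ)|) : ℝ) : ℂ)) (fun _ => by
    simpa only [Complex.norm_real, Real.norm_eq_abs, Real.abs_exp] using summable_exp_neg_abs)).1
  refine this.congr (fun n => ?_)
  rw [norm_prod]
  simp only [Complex.norm_real, Real.norm_eq_abs, Real.abs_exp]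
  rw [← Real.exp_sum, sz, Finset.sum_neg_distrib]

theorem coercive {g : ℕ} {A : Matrix (Fin g) (Fin g) ℝ} (hA : A.PosDef) :
    ∃ c : ℝ, 0 < c ∧ ∀ x : Fin g → ℝ, c * (∑ i, |x i|) ^ 2 ≤ ∑ i, ∑ j, x i * A i j * x j := by
  let Q : (Fin g → ℝ) → ℝ := fun x => ∑ i, ∑ j, x i * A i j * x j
  have hQ : ∀ x, x ≠ 0 → 0 < Q x := by
    intro x hx
    have := hA.dotProduct_mulVec_pos hx
    simp only [star_trivial, dotProduct, Matrix.mulVec, Finset.mul_sum] at this
    simpa [Q, mul_assoc] using this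
  have hc : Continuous Q := by fun_prop
  let K : Set (Fin g → ℝ) := {x | ∑ i, |x i| = 1}
  have hK : IsCompact K := by
    apply Metric.isCompact_of_isClosed_isBounded
    · exact isClosed_eq (by fun_prop) continuous_const
    · rw [isBounded_iff_forall_norm_le]
      refine ⟨1, fun x hx => ?_⟩
      rw [pi_norm_le_iff_of_nonneg zero_le_one]
      intro i
      have : |x i| ≤ ∑ i, |x i| :=
        Finset.single_le_sum (f := fun i => |x i|) (fun _ _ => abs_nonneg _) (Finset.mem_univ i)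
      rw [Real.norm_eq_abs]
      exact this.trans_eq hx
  have key : ∃ c : ℝ, 0 < c ∧ ∀ x ∈ K, c ≤ Q x := by
    rcases K.eq_empty_or_nonempty with h | h
    · exact ⟨1, one_pos, by simp [h]⟩
    · obtain ⟨x0, hx0, hmin⟩ := hK.exists_isMinOn h hc.continuousOn
      refine ⟨Q x0, hQ x0 ?_, fun x hx => hmin hx⟩
      rintro rfl
      simp [K] at hx0
  obtain ⟨c, hc0, hcK⟩ := key
  refine ⟨c, hc0, fun x => ?_⟩
  set s := ∑ i, |x i| with hs
  have hs0 : 0 ≤ s := Finset.sum_nonneg (fun _ _ => abs_nonneg _)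
  rcases hs0.eq_or_lt with h | h
  · have hx : x = 0 := by
      funext i
      have := (Finset.sum_eq_zero_iff_of_nonneg (fun _ _ => abs_nonneg _)).mp h.symm i
        (Finset.mem_univ i)
      simpa using this
    rw [← h, hx]; simp
  · have hmem : (fun i => x i / s) ∈ K := by
      simp only [K, Set.mem_ofPred_eq, abs_div, abs_of_pos h]
      rw [← Finset.sum_div, ← hs, div_self h.ne']
    have h1 := hcK _ hmem
    have h2 : Q (fun i => x i / s) * s ^ 2 = Q x := by
      simp only [Q, Finset.sum_mul]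
      refine Finset.sum_congr rfl (fun i _ => Finset.sum_congr rfl (fun j _ => ?_))
      field_simp
    change c * s ^ 2 ≤ Q x
    rw [← h2]
    exact mul_le_mul_of_nonneg_right h1 (sq_nonneg s)

/-- faster than every exponential -/
def Decay {g : ℕ} (p : (Fin g → ℤ) → ℂ) : Prop :=
  ∀ K : ℝ, Summable (fun n => ‖p n‖ * Real.exp (K * sz n))

theorem decay_weight {g : ℕ} (u : Fin g → ℂ) {B : Matrix (Fin g) (Fin g) ℂ} (hB : InH B) :
    Decay (weight u B) := by
  obtain ⟨c, hc0, hc⟩ := coercive hB.2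
  intro K
  let U : ℝ := ∑ i, ‖u i‖
  let L : ℝ := 2 * π * U + K + 1
  have hpi := Real.pi_pos
  refine Summable.of_nonneg_of_le (fun n => by positivity) (fun n => ?_)
    ((summable_exp_neg_sz g).mul_left (Real.exp (L ^ 2 / (4 * (π * c)))))
  have h1 : ‖weight u B n‖ = Real.exp (2 * π * (∑ i, (n i : ℝ) * (u i).re -
      1 / 2 * ∑ i, ∑ j, (n i : ℝ) * (B i j).re * (n j : ℝ))) := by
    rw [weight, Complex.norm_exp]
    congr 1
    have e : (2 * (π : ℂ) * (∑ i, (n i : ℂ) * u i -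
        1 / 2 * ∑ i, ∑ j, (n i : ℂ) * B i j * (n j : ℂ))) =
        ((2 * π : ℝ) : ℂ) * (∑ i, ((n i : ℝ) : ℂ) * u i -
        ((1 / 2 : ℝ) : ℂ) * ∑ i, ∑ j, (((n i : ℝ) * (n j : ℝ) : ℝ) : ℂ) * B i j) := by
      push_cast
      congr 3
      exact Finset.sum_congr rfl (fun i _ => Finset.sum_congr rfl (fun j _ => by ring))
    rw [e, Complex.re_ofReal_mul, Complex.sub_re, Complex.re_ofReal_mul, Complex.re_sum,
      Complex.re_sum]
    simp only [Complex.re_ofReal_mul, Complex.re_sum]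
    congr 3
    exact Finset.sum_congr rfl (fun i _ => Finset.sum_congr rfl (fun j _ => by ring))
  have h2 := hc (fun i => (n i : ℝ))
  simp only [Matrix.map_apply] at h2
  have h3 : ∑ i, (n i : ℝ) * (u i).re ≤ U * sz n := by
    rw [Finset.sum_mul]
    refine Finset.sum_le_sum (fun i _ => ?_)
    calc (n i : ℝ) * (u i).re ≤ |(n i : ℝ) * (u i).re| := le_abs_self _
      _ = |(u i).re| * |(n i : ℝ)| := by rw [abs_mul, mul_comm]
      _ ≤ ‖u i‖ * sz n :=
        mul_le_mul (Complex.abs_re_le_norm _) (abs_le_sz n i) (abs_nonneg _) (norm_nonneg _)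
  rw [h1, ← Real.exp_add, ← Real.exp_add]
  apply Real.exp_le_exp.mpr
  change c * (sz n) ^ 2 ≤ _ at h2
  have hpc : 0 < π * c := mul_pos hpi hc0
  have h4 : L * sz n - π * c * sz n ^ 2 ≤ L ^ 2 / (4 * (π * c)) := by
    rw [le_div_iff₀ (by positivity)]
    nlinarith [sq_nonneg (L - 2 * (π * c) * sz n)]
  have h5 := mul_le_mul_of_nonneg_left h2 hpi.le
  have h6 := mul_le_mul_of_nonneg_left h3 hpi.le
  simp only [L] at h4 ⊢
  nlinarith

theorem decay_gauss {g : ℕ} (u : Fin g → ℂ) {B : Matrix (Fin g) (Fin g) ℂ} (hB : InH B) :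
    Decay (gauss u B) := by
  intro K
  refine ((decay_weight u hB K).mul_left (‖theta u B‖⁻¹)).congr (fun n => ?_)
  simp only [gauss, norm_div]
  ring

theorem Decay.sub {g : ℕ} {p q : (Fin g → ℤ) → ℂ} (hp : Decay p) (hq : Decay q) :
    Decay (fun n => p n - q n) := by
  intro K
  refine Summable.of_nonneg_of_le (fun n => by positivity) (fun n => ?_) ((hp K).add (hq K))
  rw [← add_mul]
  exact mul_le_mul_of_nonneg_right (norm_sub_le _ _) (Real.exp_pos _).le

/-- the monomial function -/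
noncomputable def mono {g : ℕ} (α : Fin g → ℕ) (n : Fin g → ℤ) : ℂ := ∏ i, (n i : ℂ) ^ α i

theorem mono_add {g : ℕ} (α β : Fin g → ℕ) (n : Fin g → ℤ) :
    mono (α + β) n = mono α n * mono β n := by
  simp [mono, pow_add, Finset.prod_mul_distrib]

@[simp] theorem mono_zero {g : ℕ} (n : Fin g → ℤ) : mono 0 n = 1 := by simp [mono]

theorem mono_single {g : ℕ} (k : Fin g) (e : ℕ) (n : Fin g → ℤ) :
    mono (Pi.single k e) n = (n k : ℂ) ^ e := by
  unfold mono
  rw [Finset.prod_eq_single k]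
  · simp
  · intro b _ hb
    simp [Pi.single_eq_of_ne hb]
  · simp

theorem norm_mono_le {g : ℕ} (α : Fin g → ℕ) (n : Fin g → ℤ) :
    ‖mono α n‖ ≤ Real.exp ((∑ i, α i : ℕ) * sz n) := by
  rw [mono, norm_prod, Real.exp_nat_mul, ← Finset.prod_pow_eq_pow_sum]
  refine Finset.prod_le_prod (fun i _ => norm_nonneg _) (fun i _ => ?_)
  rw [norm_pow]
  refine pow_le_pow_left₀ (norm_nonneg _) ?_ _
  have h1 : ‖(n i : ℂ)‖ = |(n i : ℝ)| := by simp
  rw [h1]
  have := abs_le_sz n i
  have := Real.add_one_le_exp (sz n)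
  linarith

theorem Decay.summable_mono {g : ℕ} {p : (Fin g → ℤ) → ℂ} (hp : Decay p) (α : Fin g → ℕ) :
    Summable (fun n => ‖mono α n * p n‖) := by
  refine Summable.of_nonneg_of_le (fun n => norm_nonneg _) (fun n => ?_) (hp (∑ i, α i : ℕ))
  rw [norm_mul, mul_comm]
  exact mul_le_mul_of_nonneg_left (norm_mono_le α n) (norm_nonneg _)

end Pool.Agent.MP_e16cda_ag
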